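import Pool.Agent.helper80.SV.Spec

set_option autoImplicit false

namespace Pool.Agent.SV

open MvPolynomial Module

theorem EUL_mon {ι : Type} [DecidableEq ι] (i : ι) (m : ι →₀ ℕ) (a : ℂ) (x : ι → ℂ) :
    x i * eval x (pderiv i (monomial m a)) = (m i : ℂ) * eval x (monomial m a) := by
  have h := congrArg (eval x) (X_mul_pderiv_monomial (R := ℂ) (i := i) (m := m) (r := a))
  simpa [nsmul_eq_mul] using h

theorem EUL : EUL_stmt := by
  intro ι κ _ _ _ _ c A d f hf k x
  have hf' := mem_Sec.1 hf
  have key : ∀ g : MvPolynomial ι ℂ, ∀ i, eval x (pderiv i g)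
      = ∑ m ∈ g.support, eval x (pderiv i (monomial m (coeff m g))) := by
    intro g i
    conv_lhs => rw [g.as_sum]
    rw [map_sum, map_sum]
  have key2 : eval x f = ∑ m ∈ f.support, eval x (monomial m (coeff m f)) := by
    conv_lhs => rw [f.as_sum]
    rw [map_sum]
  rw [key2, Finset.mul_sum]
  simp_rw [key f, Finset.mul_sum]
  rw [Finset.sum_comm]
  refine Finset.sum_congr rfl fun m hm => ?_
  simp_rw [EUL_mon]
  rw [← Finset.sum_mul]
  congr 1
  have h := (hf' m (mem_support_iff.1 hm)).2 k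
  rw [← h]
  push_cast
  rfl

end Pool.Agent.SV
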