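import Pool.Agent.helper96.SV.SpecA

set_option autoImplicit false
set_option linter.unusedSectionVars false

namespace Pool.Agent.SVA

open Polynomial Module

variable {K : Type} [Fintype K] [DecidableEq K] {m : K → ℕ}

theorem BLK_ten (α : Bx m) (i : K) (w : Fin (m i + 1) → ℂ) (β : Bx m) :
    ten (Function.update (fun i' => (Pi.single (α i') 1 : Fin (m i' + 1) → ℂ)) i w) β =
      if β = Function.update α i (β i) then w (β i) else 0 := by
  unfold ten
  rw [← Finset.mul_prod_erase _ _ (Finset.mem_univ i), Function.update_self]
  by_cases h : β = Function.update α i (β i)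
  · rw [if_pos h]
    have h1 : ∀ i' ∈ Finset.univ.erase i, Function.update
        (fun i' => (Pi.single (α i') 1 : Fin (m i' + 1) → ℂ)) i w i' (β i') = 1 := by
      intro i' hi'
      have hne := Finset.ne_of_mem_erase hi'
      rw [Function.update_of_ne hne]
      have h2 : β i' = α i' := by
        have := congrFun h i'
        rwa [Function.update_of_ne hne] at this
      rw [h2, Pi.single_eq_same]
    rw [Finset.prod_congr rfl h1]
    simp
  · rw [if_neg h]
    have h1 : ∃ i', i' ≠ i ∧ β i' ≠ α i' := by
      by_contra hcon
      push Not at hcon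
      apply h
      funext i'
      by_cases hi : i' = i
      · subst hi; rw [Function.update_self]
      · rw [Function.update_of_ne hi]; exact hcon i' hi
    obtain ⟨i', hi1, hi2⟩ := h1
    have h2 : ∏ i' ∈ Finset.univ.erase i, Function.update
        (fun i' => (Pi.single (α i') 1 : Fin (m i' + 1) → ℂ)) i w i' (β i') = 0 := by
      apply Finset.prod_eq_zero (Finset.mem_erase.2 ⟨hi1, Finset.mem_univ i'⟩)
      rw [Function.update_of_ne hi1, Pi.single_eq_of_ne hi2]
    rw [h2, mul_zero]

theorem BLK_pr (α : Bx m) (i : K) (w : Fin (m i + 1) → ℂ) (a : Bx m → ℂ) :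
    pr a (ten (Function.update (fun i' => (Pi.single (α i') 1 : Fin (m i' + 1) → ℂ)) i w)) =
      ∑ j, a (Function.update α i j) * w j := by
  unfold pr
  simp_rw [BLK_ten]
  have h1 : ∀ β : Bx m, a β * (if β = Function.update α i (β i) then w (β i) else 0) =
      ∑ j : Fin (m i + 1), if β = Function.update α i j then a β * w j else 0 := by
    intro β
    rw [Finset.sum_eq_single (β i)]
    · split_ifs <;> simp
    · intro j _ hj
      rw [if_neg]
      intro h
      apply hj
      rw [h, Function.update_self]
    · intro h; exact absurd (Finset.mem_univ _) h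
  simp_rw [h1]
  rw [Finset.sum_comm]
  refine Finset.sum_congr rfl fun j _ => ?_
  rw [Finset.sum_ite_eq' Finset.univ (Function.update α i j)]
  simp

theorem BLK_ten0 (α : Bx m) (i : K) : (fun i' => (Pi.single (α i') 1 : Fin (m i' + 1) → ℂ)) =
    Function.update (fun i' => (Pi.single (α i') 1 : Fin (m i' + 1) → ℂ)) i
      (Pi.single (α i) 1) := by
  rw [Function.update_eq_self]

theorem BLK_pr0 [Nonempty K] (α : Bx m) (a : Bx m → ℂ) :
    pr a (ten (fun i' => (Pi.single (α i') 1 : Fin (m i' + 1) → ℂ))) = a α := by
  obtain ⟨i⟩ := ‹Nonempty K›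
  rw [BLK_ten0 α i, BLK_pr, Finset.sum_eq_single (α i)]
  · simp
  · intro j _ hj
    rw [Pi.single_eq_of_ne hj, mul_zero]
  · intro h; exact absurd (Finset.mem_univ _) h

theorem BLK_Sg [Nonempty K] (q : Bx m → ℂ) (α : Bx m) (F : Bx m → ℂ[X]) :
    F ∈ Sg (blk q α) ↔ (∀ i j, (F (Function.update α i j)).eval (q α) = 0) ∧
      (derivative (F α)).eval (q α) = 0 := by
  rw [mem_Sg]
  unfold blk
  simp only
  rw [BLK_pr0]
  refine and_congr ?_ Iff.rfl
  constructor
  · intro h i j
    have h1 := h _ (Submodule.subset_span ⟨i, Pi.single j 1, rfl⟩)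
    rw [BLK_pr, Finset.sum_eq_single j] at h1
    · simpa [ev] using h1
    · intro j' _ hj'
      rw [Pi.single_eq_of_ne hj', mul_zero]
    · intro h; exact absurd (Finset.mem_univ _) h
  · intro h z hz
    unfold Tan at hz
    induction hz using Submodule.span_induction with
    | mem x hx =>
      obtain ⟨i, w, rfl⟩ := hx
      rw [BLK_pr]
      apply Finset.sum_eq_zero
      intro j _
      have := h i j
      simp [ev, this]
    | zero => exact pr_zero_right _
    | add x y _ _ hx hy => rw [pr_add_right, hx, hy, add_zero]
    | smul c x _ hx => rw [pr_smul_right, hx, mul_zero]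

theorem BLK_sq {p : ℂ[X]} {a : ℂ} (h0 : p.eval a = 0) (h1 : (derivative p).eval a = 0) :
    (X - C a) ^ 2 ∣ p := by
  obtain ⟨r, hr⟩ := dvd_iff_isRoot.2 h0
  have h2 : r.eval a = 0 := by
    rw [hr] at h1
    simpa using h1
  obtain ⟨s, hs⟩ := dvd_iff_isRoot.2 h2
  exact ⟨s, by rw [hr, hs]; ring⟩

theorem BLK_sq' {p : ℂ[X]} {a : ℂ} (h : (X - C a) ^ 2 ∣ p) :
    p.eval a = 0 ∧ (derivative p).eval a = 0 := by
  obtain ⟨s, rfl⟩ := h
  constructor
  · simp
  · rw [derivative_mul, derivative_pow]
    simp

theorem BLK : BLK_stmt := by
  intro K _ _ _ m q hq F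
  have hstep : (∀ P ∈ blkL q, F ∈ Sg P) ↔ ∀ α, ((∀ i j, (F (Function.update α i j)).eval (q α) = 0) ∧
      (derivative (F α)).eval (q α) = 0) := by
    constructor
    · intro h α
      exact (BLK_Sg q α F).1 (h _ (mem_blkL.2 ⟨α, rfl⟩))
    · intro h P hP
      obtain ⟨α, rfl⟩ := mem_blkL.1 hP
      exact (BLK_Sg q α F).2 (h α)
  rw [hstep]
  constructor
  · intro h β
    have hcop := pairwise_coprime_X_sub_C hq
    obtain ⟨i₀⟩ := ‹Nonempty K›
    have hsq : (X - C (q β)) ^ 2 ∣ F β := by
      apply BLK_sq
      · have := (h β).1 i₀ (β i₀)
        rwa [Function.update_eq_self] at this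
      · exact (h β).2
    have hroot : ∀ i, ∀ j ∈ Finset.univ.erase (β i), (X - C (q (Function.update β i j))) ∣ F β := by
      intro i j _
      rw [dvd_iff_isRoot]
      have := (h (Function.update β i j)).1 i (β i)
      rw [Function.update_idem, Function.update_eq_self] at this
      exact this
    have hneβ : ∀ i, ∀ j ∈ Finset.univ.erase (β i), β ≠ Function.update β i j := by
      intro i j hj he
      have := congrFun he i
      rw [Function.update_self] at this
      exact (Finset.ne_of_mem_erase hj) this.symm
    unfold phi
    apply IsCoprime.mul_dvd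
    · apply IsCoprime.pow_left
      apply IsCoprime.prod_right
      intro i _
      apply IsCoprime.prod_right
      intro j hj
      exact hcop (hneβ i j hj)
    · exact hsq
    · apply Finset.prod_dvd_of_coprime
      · intro i _ i' _ hii
        simp only [Function.onFun]
        apply IsCoprime.prod_left
        intro j hj
        apply IsCoprime.prod_right
        intro j' hj'
        apply hcop
        intro he
        have := congrFun he i
        rw [Function.update_self, Function.update_of_ne hii] at this
        exact (Finset.ne_of_mem_erase hj) this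
      · intro i _
        apply Finset.prod_dvd_of_coprime
        · intro j _ j' _ hjj
          simp only [Function.onFun]
          apply hcop
          intro he
          have := congrFun he i
          rw [Function.update_self, Function.update_self] at this
          exact hjj this
        · intro j hj
          exact hroot i j hj
  · intro h α
    have h0 := BLK_sq' ((Dvd.intro _ rfl : (X - C (q α)) ^ 2 ∣ phi q α).trans (h α))
    refine ⟨fun i j => ?_, h0.2⟩
    by_cases hj : j = α i
    · subst hj
      rw [Function.update_eq_self]
      exact h0.1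
    · have h1 : (X - C (q α)) ∣ phi q (Function.update α i j) := by
        unfold phi
        apply Dvd.dvd.mul_left
        have h2 : α i ∈ Finset.univ.erase ((Function.update α i j) i) := by
          rw [Function.update_self]
          exact Finset.mem_erase.2 ⟨fun h => hj h.symm, Finset.mem_univ _⟩
        have h3 : (X - C (q α)) ∣ ∏ j' ∈ Finset.univ.erase ((Function.update α i j) i),
            (X - C (q (Function.update (Function.update α i j) i j'))) := by
          have h4 := Finset.dvd_prod_of_mem (fun j' => (X - C (q (Function.update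
            (Function.update α i j) i j')) : ℂ[X])) h2
          rwa [Function.update_idem, Function.update_eq_self] at h4
        exact h3.trans (Finset.dvd_prod_of_mem (fun i' => ∏ j' ∈ Finset.univ.erase
          ((Function.update α i j) i'), (X - C (q (Function.update (Function.update α i j) i' j')) : ℂ[X]))
          (Finset.mem_univ i))
      exact dvd_iff_isRoot.1 (h1.trans (h _))

end Pool.Agent.SVA
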