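import Pool.Agent.helper96.SV.SpecA

set_option autoImplicit false

namespace Pool.Agent.SVA

open Polynomial Module Pool.Agent.SV

theorem E1E_card (k : ℕ) (n : Fin k → ℕ) (i : Fin k) :
    ((Finset.univ : Finset (Var n)).filter (fun v => (Sigma.fst v : Fin k) = i)).card = n i + 1 := by
  have h : (Finset.univ : Finset (Var n)).filter (fun v => (Sigma.fst v : Fin k) = i) =
      (Finset.univ : Finset (Fin (n i + 1))).map
        ⟨fun j => (⟨i, j⟩ : Var n), fun a b hab => by
          simpa using hab⟩ := by
    ext v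
    simp only [Finset.mem_filter, Finset.mem_univ, true_and, Finset.mem_map,
      Function.Embedding.coeFn_mk]
    constructor
    · intro hv
      obtain ⟨a, b⟩ := v
      dsimp at hv
      subst hv
      exact ⟨b, rfl⟩
    · rintro ⟨j, hj⟩
      rw [← hj]
  rw [h, Finset.card_map, Finset.card_univ, Fintype.card_fin]

theorem E1E (hC : CRI_stmt) (hB : BR3_stmt) (hA : SV.ALR_stmt) (hD : SV.DIM_stmt)
    (hM : SV.MHS_stmt) : E1E_stmt := by
  intro k n hk hn l hl d hd hbig
  have hsub : ∀ x : Fin k, x ∈ Finset.univ.erase l ↔ x ≠ l := by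
    intro x
    simp
  have hDD : DD (mm n l) = ∑ i, n i + 1 := by
    unfold DD
    rw [← Finset.add_sum_erase _ _ (Finset.mem_univ l), hl]
    rw [Finset.sum_subtype (Finset.univ.erase l) hsub (fun i => n i)]
    ring
  have hvv : vv (mm n l) = ∏ i ∈ Finset.univ.erase l, (n i + 1) := by
    unfold vv
    rw [Finset.prod_subtype (Finset.univ.erase l) hsub (fun i => n i + 1)]
  have hfr : finrank ℂ (MultiHom n d) = vv (mm n l) * (d l + 1) := by
    rw [hM, hD, ← Finset.mul_prod_erase _ _ (Finset.mem_univ l), hvv]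
    simp_rw [E1E_card]
    rw [hl, Nat.multichoose_two, mul_comm]
    congr 1
    refine Finset.prod_congr rfl fun i hi => ?_
    rw [hd i (Finset.ne_of_mem_erase hi), Nat.multichoose_one_right]
  have hdl : 1 ≤ d l := by
    refine le_trans ?_ hbig
    have : 0 < (∑ i, n i + 1) * (1 + (∑ i, n i + 1) * ∏ i ∈ Finset.univ.erase l, (n i + 1)) := by
      positivity
    exact this
  have hcard : Fintype.card {i : Fin k // i ≠ l} = k - 1 := by
    simp
  have hne : Nonempty {i : Fin k // i ≠ l} := by
    rw [← Fintype.card_pos_iff, hcard]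
    omega
  refine hA k n d (by omega) ?_ ?_
  · intro i
    by_cases hi : i = l
    · rw [hi]; exact hdl
    · exact (hd i hi).ge
  · intro r hr
    have hr' : r = vv (mm n l) * (d l + 1) / DD (mm n l) ∨
        r = (vv (mm n l) * (d l + 1) + (DD (mm n l) - 1)) / DD (mm n l) := by
      rw [hfr] at hr
      rw [hDD]
      simpa using hr
    obtain ⟨L, hL1, hL2⟩ := hC (mm n l) (by rw [hcard]; omega) (fun i => hn i.1) (d l + 1)
      (by rw [hDD, hvv]; omega) r hr'
    subst hL1
    refine ⟨fun j : Fin L.length => toPt n l (L.get j), ?_⟩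
    refine (hB k n d l hl hd L).trans ?_
    rw [hfr, ← hDD]
    exact hL2

end Pool.Agent.SVA
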